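import Mathlib

/-!
# Smooth Riemannian metrics on the `n`-sphere

`Sⁿ` is the unit sphere of `ℝ^{n+1}`; its tangent space at `x` is `x^⊥`. A Riemannian metric `g` on `Sⁿ` is given
by the matrix field `G` with `g_x(u,v) = uᵀ G(x) v` for `u, v ⊥ x`, normalised by `G(x) x = x` and extended to
`ℝ^{n+1} \ {0}` constant on rays. `cyl G = |x|⁻² G` is the product metric `dr²/r² + g` of
`ℝ^{n+1} \ {0} = (0,∞) × Sⁿ` in cartesian coordinates; its sectional curvatures on planes tangent to the unit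
sphere are the sectional curvatures of `g`.
-/

set_option autoImplicit false

namespace Pool.Agent.Helper47.SN

open Finset MeasureTheory

/-- `ℝ^{n+1}` -/
abbrev EE (n : ℕ) := EuclideanSpace ℝ (Fin (n + 1))

/-- fields of matrices on `ℝ^{n+1}` -/
abbrev MF (n : ℕ) := EE n → Matrix (Fin (n + 1)) (Fin (n + 1)) ℝ

/-- A smooth Riemannian metric on `Sⁿ`: a smooth field `G` of symmetric positive definite matrices on
`ℝ^{n+1} \ {0}`, constant on rays, with `G(x) x = x`. The metric is `g_x(u,v) = uᵀ G(x) v` on `x^⊥`, `|x| = 1`. -/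
structure RMetric (n : ℕ) where
  G : MF n
  smooth : ∀ i j, ContDiffOn ℝ ((⊤ : ℕ∞) : WithTop ℕ∞) (fun x => G x i j) {0}ᶜ
  rays : ∀ (r : ℝ) (x : EE n), 0 < r → G (r • x) = G x
  posDef : ∀ x : EE n, ‖x‖ = 1 → (G x).PosDef
  radial : ∀ x : EE n, ‖x‖ = 1 → ∀ i, ∑ j, G x i j * x j = x i

/-- partial derivative -/
noncomputable def pd {n : ℕ} (i : Fin (n + 1)) (f : EE n → ℝ) (x : EE n) : ℝ :=
  fderiv ℝ f x (EuclideanSpace.single i 1)

/-- the product metric `dr²/r² + g` in cartesian coordinates of `ℝ^{n+1} \ {0}` -/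
noncomputable def cyl {n : ℕ} (G : MF n) : MF n := fun x => (‖x‖ ^ 2)⁻¹ • G x

/-- Christoffel symbols in coordinates: `∇_{∂_i} ∂_j = ∑ k, Chr g i j k ∂_k` -/
noncomputable def Chr {n : ℕ} (g : MF n) (i j k : Fin (n + 1)) (x : EE n) : ℝ :=
  1 / 2 * ∑ l, (g x)⁻¹ k l * (pd i (fun y => g y j l) x + pd j (fun y => g y i l) x - pd l (fun y => g y i j) x)

/-- curvature in coordinates: `R(∂_i,∂_j)∂_k = ∇_i ∇_j ∂_k - ∇_j ∇_i ∂_k = ∑ l, Rup g i j k l ∂_l` -/
noncomputable def Rup {n : ℕ} (g : MF n) (i j k l : Fin (n + 1)) (x : EE n) : ℝ :=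
  pd i (Chr g j k l) x - pd j (Chr g i k l) x
    + ∑ m, (Chr g j k m x * Chr g i m l x - Chr g i k m x * Chr g j m l x)

/-- `Rm g i j k l = g(R(∂_i,∂_j)∂_k, ∂_l)` -/
noncomputable def Rm {n : ℕ} (g : MF n) (i j k l : Fin (n + 1)) (x : EE n) : ℝ := ∑ m, Rup g i j k m x * g x m l

/-- inner product `g_x(u,v)` -/
def ip {n : ℕ} (g : MF n) (x : EE n) (u v : Fin (n + 1) → ℝ) : ℝ := ∑ i, ∑ j, g x i j * u i * v j

/-- `g(R(u,v)v, u)` -/
noncomputable def curv {n : ℕ} (g : MF n) (x : EE n) (u v : Fin (n + 1) → ℝ) : ℝ :=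
  ∑ i, ∑ j, ∑ k, ∑ l, Rm g i j k l x * u i * v j * v k * u l

/-- squared area of the parallelogram spanned by `u, v` -/
def ar {n : ℕ} (g : MF n) (x : EE n) (u v : Fin (n + 1) → ℝ) : ℝ := ip g x u u * ip g x v v - ip g x u v ^ 2

/-- sectional curvature of the plane spanned by the linearly independent vectors `u, v` -/
noncomputable def sec {n : ℕ} (g : MF n) (x : EE n) (u v : Fin (n + 1) → ℝ) : ℝ := curv g x u v / ar g x u v

/-- tangent vectors of the sphere at `x` -/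
def Tan {n : ℕ} (x : EE n) (u : Fin (n + 1) → ℝ) : Prop := ∑ i, u i * x i = 0

/-- Pointwise pinching of the metric `G` of `Sⁿ` at `x`, `|x| = 1`: all sectional curvatures at `x` are positive,
and `K(σ) > δ K(σ')` for all planes `σ, σ'` tangent to the sphere at `x`. -/
def PinchedAt {n : ℕ} (δ : ℝ) (G : MF n) (x : EE n) : Prop :=
  ∀ u v u' v' : Fin (n + 1) → ℝ, Tan x u → Tan x v → Tan x u' → Tan x v' →
    LinearIndependent ℝ ![u, v] → LinearIndependent ℝ ![u', v'] →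
    0 < sec (cyl G) x u v ∧ δ * sec (cyl G) x u' v' < sec (cyl G) x u v

/-- speed of a curve in `Sⁿ` -/
noncomputable def speed {n : ℕ} (G : MF n) (c : ℝ → EE n) (t : ℝ) : ℝ :=
  Real.sqrt (ip G (c t) (fun i => deriv c t i) (fun i => deriv c t i))

/-- length of the curve `c : [0,1] → Sⁿ` -/
noncomputable def glen {n : ℕ} (G : MF n) (c : ℝ → EE n) : ℝ := ∫ t in (0:ℝ)..1, speed G c t

/-- Lipschitz curves in `Sⁿ` from `x` to `y` -/
def Joins {n : ℕ} (c : ℝ → EE n) (x y : EE n) : Prop :=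
  (∃ K, LipschitzWith K c) ∧ (∀ t, ‖c t‖ = 1) ∧ c 0 = x ∧ c 1 = y

/-- Riemannian distance of two points of `Sⁿ` -/
noncomputable def gdist {n : ℕ} (G : MF n) (x y : EE n) : ℝ := sInf {r | ∃ c, Joins c x y ∧ r = glen G c}

/-- diameter of `(Sⁿ, g)` -/
noncomputable def gdiam {n : ℕ} (G : MF n) : ℝ :=
  sSup {r | ∃ x y : EE n, ‖x‖ = 1 ∧ ‖y‖ = 1 ∧ r = gdist G x y}

/-- Riemannian volume of `(Sⁿ, g)`: the integral of `√det G` over the surface measure of the unit sphere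
(`G(x) x = x`, so `det G(x)` is the determinant of `g_x` on `x^⊥`) -/
noncomputable def gvol {n : ℕ} (G : MF n) : ℝ :=
  ∫ y : Metric.sphere (0 : EE n) 1, Real.sqrt (G (y : EE n)).det ∂(volume : Measure (EE n)).toSphere

end Pool.Agent.Helper47.SN
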