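import Pool.Agent.Helper47.SN.SNdefs

/-!
# Sanity check of the definitions: the round metric has sectional curvature `1`
-/

set_option autoImplicit false

namespace Pool.Agent.Helper47.SN

open Finset

variable {n : ℕ}

/-- the round metric -/
noncomputable def round (n : ℕ) : RMetric n where
  G := fun _ => 1
  smooth := fun _ _ => contDiffOn_const
  rays := fun _ _ _ => rfl
  posDef := fun _ _ => Matrix.PosDef.one
  radial := fun x _ i => by simp [Matrix.one_apply]

/-- Kronecker symbol -/
def kd (i j : Fin (n + 1)) : ℝ := if i = j then 1 else 0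

/-- `|x|⁻²` -/
noncomputable def qq (x : EE n) : ℝ := (‖x‖ ^ 2)⁻¹

theorem hasFDerivAt_qq (x : EE n) (hx : x ≠ 0) :
    HasFDerivAt qq (-((‖x‖ ^ 2) ^ 2)⁻¹ • ((2 : ℝ) • innerSL ℝ x)) x := by
  have h1 : HasFDerivAt (fun y : EE n => ‖y‖ ^ 2) ((2 : ℝ) • innerSL ℝ x) x := by
    have h := (hasStrictFDerivAt_norm_sq x).hasFDerivAt
    have e : (2 : ℝ) • innerSL ℝ x = (2 : ℕ) • innerSL ℝ x := by
      rw [two_smul, two_smul]
    rw [e]
    exact h
  have hn : ‖x‖ ^ 2 ≠ 0 := pow_ne_zero 2 (norm_ne_zero_iff.mpr hx)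
  exact (hasDerivAt_inv hn).comp_hasFDerivAt x h1

theorem inner_single (x : EE n) (i : Fin (n + 1)) :
    inner ℝ x (EuclideanSpace.single i (1 : ℝ)) = x i := by
  rw [EuclideanSpace.inner_single_right]
  simp

theorem pd_of {f : EE n → ℝ} {f' : EE n →L[ℝ] ℝ} {x : EE n} (h : HasFDerivAt f f' x) (i : Fin (n + 1)) :
    pd i f x = f' (EuclideanSpace.single i 1) := by
  unfold pd
  rw [h.fderiv]

theorem pd_qq (x : EE n) (hx : x ≠ 0) (i : Fin (n + 1)) (c : ℝ) :
    pd i (fun y => qq y * c) x = -2 * x i * qq x ^ 2 * c := by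
  rw [pd_of ((hasFDerivAt_qq x hx).mul_const c) i]
  simp only [smul_apply, innerSL_apply_apply, smul_eq_mul, inner_single]
  unfold qq
  ring

theorem cyl_round (x : EE n) (i j : Fin (n + 1)) : cyl (round n).G x i j = qq x * kd i j := by
  unfold cyl round qq kd
  simp [Matrix.one_apply]

theorem cyl_inv (x : EE n) (hx : x ≠ 0) (i j : Fin (n + 1)) :
    (cyl (round n).G x)⁻¹ i j = ‖x‖ ^ 2 * kd i j := by
  have hn : ‖x‖ ^ 2 ≠ 0 := pow_ne_zero 2 (norm_ne_zero_iff.mpr hx)
  have h1 : (cyl (round n).G x)⁻¹ = (‖x‖ ^ 2) • (1 : Matrix (Fin (n + 1)) (Fin (n + 1)) ℝ) := by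
    apply Matrix.inv_eq_right_inv
    show ((‖x‖ ^ 2)⁻¹ • (1 : Matrix (Fin (n + 1)) (Fin (n + 1)) ℝ)) * _ = 1
    rw [Matrix.smul_mul, Matrix.mul_smul, one_mul, smul_smul, inv_mul_cancel₀ hn, one_smul]
  rw [h1]
  unfold kd
  simp [Matrix.one_apply]

theorem sum_kd (k : Fin (n + 1)) (f : Fin (n + 1) → ℝ) : ∑ l, kd k l * f l = f k := by
  unfold kd
  simp

theorem Chr_round (x : EE n) (hx : x ≠ 0) (i j k : Fin (n + 1)) :
    Chr (cyl (round n).G) i j k x = -(qq x * (x i * kd j k + x j * kd i k - x k * kd i j)) := by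
  have hn : ‖x‖ ^ 2 ≠ 0 := pow_ne_zero 2 (norm_ne_zero_iff.mpr hx)
  unfold Chr
  simp only [cyl_round, cyl_inv x hx, pd_qq x hx]
  have h1 : ∀ l, ‖x‖ ^ 2 * kd k l * (-2 * x i * qq x ^ 2 * kd j l + -2 * x j * qq x ^ 2 * kd i l
      - -2 * x l * qq x ^ 2 * kd i j)
      = kd k l * (‖x‖ ^ 2 * (-2 * x i * qq x ^ 2 * kd j l + -2 * x j * qq x ^ 2 * kd i l
      - -2 * x l * qq x ^ 2 * kd i j)) := fun l => by ring
  rw [Finset.sum_congr rfl fun l _ => h1 l, sum_kd]
  have h2 : ‖x‖ ^ 2 * qq x = 1 := mul_inv_cancel₀ hn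
  linear_combination (-(x i * kd j k + x j * kd i k - x k * kd i j) * qq x) * h2

theorem hasFDerivAt_coord (x : EE n) (i : Fin (n + 1)) :
    HasFDerivAt (fun y : EE n => y i) (EuclideanSpace.proj i : EE n →L[ℝ] ℝ) x :=
  (EuclideanSpace.proj i : EE n →L[ℝ] ℝ).hasFDerivAt

theorem pd_Chr_round (x : EE n) (hx : ‖x‖ = 1) (a i j k : Fin (n + 1)) :
    pd a (Chr (cyl (round n).G) i j k) x
      = 2 * x a * (x i * kd j k + x j * kd i k - x k * kd i j)
        - (kd a i * kd j k + kd a j * kd i k - kd a k * kd i j) := by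
  have h0 : x ≠ 0 := by
    intro h0
    rw [h0, norm_zero] at hx
    exact zero_ne_one hx
  have h1 : Chr (cyl (round n).G) i j k =ᶠ[nhds x]
      fun y => -(qq y * (y i * kd j k + y j * kd i k - y k * kd i j)) := by
    filter_upwards [isOpen_compl_singleton.mem_nhds h0] with y hy
    exact Chr_round y hy i j k
  have h2 := ((hasFDerivAt_qq x h0).mul ((((hasFDerivAt_coord x i).mul_const (kd j k)).add
    ((hasFDerivAt_coord x j).mul_const (kd i k))).sub ((hasFDerivAt_coord x k).mul_const (kd i j)))).neg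
  have h3 := h2.congr_of_eventuallyEq h1
  rw [pd_of h3 a]
  have hs : ∀ b : Fin (n + 1), (EuclideanSpace.single a (1 : ℝ) : EE n) b = kd a b := by
    intro b
    unfold kd
    simp [eq_comm]
  have hq : qq x = 1 := by
    unfold qq
    rw [hx]
    norm_num
  have hp : ∀ b : Fin (n + 1), (EuclideanSpace.proj b : EE n →L[ℝ] ℝ) (EuclideanSpace.single a (1 : ℝ))
      = kd a b := fun b => hs b
  simp only [neg_apply, add_apply, smul_apply, sub_apply, innerSL_apply_apply, smul_eq_mul, inner_single, hp,
    hq, hx, Pi.add_apply, Pi.sub_apply]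
  ring

theorem Rup_round (x : EE n) (hx : ‖x‖ = 1) (i j k l : Fin (n + 1)) :
    Rup (cyl (round n).G) i j k l x
      = x i * x k * kd j l - x i * x l * kd j k - x j * x k * kd i l + x j * x l * kd i k
        - kd i k * kd j l + kd i l * kd j k := by
  have h0 : x ≠ 0 := by
    intro h0
    rw [h0, norm_zero] at hx
    exact zero_ne_one hx
  have hq : qq x = 1 := by
    unfold qq
    rw [hx]
    norm_num
  have hk : ∀ a b : Fin (n + 1), kd a b = kd b a := by
    intro a b
    unfold kd
    simp [eq_comm]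
  have hs : ∑ m, x m * x m = 1 := by
    have h1 := EuclideanSpace.real_norm_sq_eq x
    rw [hx, one_pow] at h1
    refine Eq.trans ?_ h1.symm
    exact Finset.sum_congr rfl fun m _ => by ring
  unfold Rup
  rw [pd_Chr_round x hx, pd_Chr_round x hx]
  simp only [Chr_round x h0, hq, one_mul]
  have key : ∀ i j : Fin (n + 1), ∑ m, -(x j * kd k m + x k * kd j m - x m * kd j k)
      * -(x i * kd m l + x m * kd i l - x l * kd i m)
      = x i * x j * kd k l + 2 * (x j * x k * kd i l) - x j * x l * kd i k + x i * x k * kd j l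
        - x k * x l * kd i j - kd j k * kd i l := by
    intro i j
    have e : ∀ m, -(x j * kd k m + x k * kd j m - x m * kd j k)
      * -(x i * kd m l + x m * kd i l - x l * kd i m)
      = kd k m * (x j * (x i * kd m l + x m * kd i l - x l * kd i m))
        + kd j m * (x k * (x i * kd m l + x m * kd i l - x l * kd i m))
        - (kd l m * (x m * x i * kd j k)) - kd j k * kd i l * (x m * x m)
        + kd i m * (x m * kd j k * x l) := by
      intro m
      rw [hk m l]
      ring
    rw [Finset.sum_congr rfl fun m _ => e m]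
    simp only [Finset.sum_add_distrib, Finset.sum_sub_distrib, sum_kd, ← Finset.mul_sum, hs]
    ring
  rw [Finset.sum_sub_distrib, key i j, key j i, hk j i]
  ring

theorem Rm_round (x : EE n) (hx : ‖x‖ = 1) (i j k l : Fin (n + 1)) :
    Rm (cyl (round n).G) i j k l x
      = x i * x k * kd j l - x i * x l * kd j k - x j * x k * kd i l + x j * x l * kd i k
        - kd i k * kd j l + kd i l * kd j k := by
  have hq : qq x = 1 := by
    unfold qq
    rw [hx]
    norm_num
  unfold Rm
  have e : ∀ m, Rup (cyl (round n).G) i j k m x * cyl (round n).G x m l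
      = kd l m * Rup (cyl (round n).G) i j k m x := by
    intro m
    rw [cyl_round, hq]
    unfold kd
    simp only [eq_comm]
    ring
  rw [Finset.sum_congr rfl fun m _ => e m, sum_kd, Rup_round x hx]

theorem ip_round (x : EE n) (hx : ‖x‖ = 1) (u v : Fin (n + 1) → ℝ) :
    ip (cyl (round n).G) x u v = ∑ i, u i * v i := by
  have hq : qq x = 1 := by
    unfold qq
    rw [hx]
    norm_num
  unfold ip
  refine Finset.sum_congr rfl fun i _ => ?_
  have e : ∀ j, cyl (round n).G x i j * u i * v j = kd i j * (u i * v j) := by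
    intro j
    rw [cyl_round, hq]
    ring
  rw [Finset.sum_congr rfl fun j _ => e j, sum_kd]

theorem curv_round (x : EE n) (hx : ‖x‖ = 1) (u v : Fin (n + 1) → ℝ) (hu : Tan x u) (hv : Tan x v) :
    curv (cyl (round n).G) x u v = (∑ i, u i * u i) * (∑ i, v i * v i) - (∑ i, u i * v i) ^ 2 := by
  have hk : ∀ a b : Fin (n + 1), kd a b = kd b a := by
    intro a b
    unfold kd
    simp [eq_comm]
  unfold Tan at hu hv
  unfold curv
  simp only [Rm_round x hx]
  have e : ∀ i j k, ∑ l, (x i * x k * kd j l - x i * x l * kd j k - x j * x k * kd i l + x j * x l * kd i k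
        - kd i k * kd j l + kd i l * kd j k) * u i * v j * v k * u l
      = x i * x k * u i * v j * v k * u j - x j * x k * u i * v j * v k * u i
        - kd i k * (u i * v j * v k * u j) + kd j k * (u i * v j * v k * u i) := by
    intro i j k
    have e1 : ∀ l, (x i * x k * kd j l - x i * x l * kd j k - x j * x k * kd i l + x j * x l * kd i k
        - kd i k * kd j l + kd i l * kd j k) * u i * v j * v k * u l
        = kd j l * (x i * x k * u i * v j * v k * u l) - (x i * kd j k * u i * v j * v k) * (u l * x l)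
          - kd i l * (x j * x k * u i * v j * v k * u l) + (x j * kd i k * u i * v j * v k) * (u l * x l)
          - kd j l * (kd i k * (u i * v j * v k * u l)) + kd i l * (kd j k * (u i * v j * v k * u l)) :=
      fun l => by ring
    rw [Finset.sum_congr rfl fun l _ => e1 l]
    simp only [Finset.sum_add_distrib, Finset.sum_sub_distrib, sum_kd, ← Finset.mul_sum, hu]
    ring
  simp only [e]
  have e2 : ∀ i j, ∑ k, (x i * x k * u i * v j * v k * u j - x j * x k * u i * v j * v k * u i
        - kd i k * (u i * v j * v k * u j) + kd j k * (u i * v j * v k * u i))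
      = - (u i * v j * v i * u j) + u i * v j * v j * u i := by
    intro i j
    have e1 : ∀ k, (x i * x k * u i * v j * v k * u j - x j * x k * u i * v j * v k * u i
        - kd i k * (u i * v j * v k * u j) + kd j k * (u i * v j * v k * u i))
        = (x i * u i * v j * u j) * (v k * x k) - (x j * u i * v j * u i) * (v k * x k)
        - kd i k * (u i * v j * v k * u j) + kd j k * (u i * v j * v k * u i) := fun k => by ring
    rw [Finset.sum_congr rfl fun k _ => e1 k]
    simp only [Finset.sum_add_distrib, Finset.sum_sub_distrib, sum_kd, ← Finset.mul_sum, hv]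
    ring
  simp only [e2]
  have e3 : ∀ i, ∑ j, (- (u i * v j * v i * u j) + u i * v j * v j * u i)
      = - (u i * v i) * (∑ j, u j * v j) + (u i * u i) * (∑ j, v j * v j) := by
    intro i
    rw [Finset.sum_add_distrib, Finset.mul_sum, Finset.mul_sum]
    congr 1
    · exact Finset.sum_congr rfl fun j _ => by ring
    · exact Finset.sum_congr rfl fun j _ => by ring
  simp only [e3]
  rw [Finset.sum_add_distrib, ← Finset.sum_mul, ← Finset.sum_mul, Finset.sum_neg_distrib]
  ring

/-- all sectional curvatures of the round metric are `1` -/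
theorem sec_round (x : EE n) (hx : ‖x‖ = 1) (u v : Fin (n + 1) → ℝ) (hu : Tan x u) (hv : Tan x v)
    (h : LinearIndependent ℝ ![u, v]) : sec (cyl (round n).G) x u v = 1 := by
  unfold sec ar
  rw [curv_round x hx u v hu hv, ip_round x hx, ip_round x hx, ip_round x hx]
  apply div_self
  intro h0
  rw [LinearIndependent.pair_iff] at h
  -- the vector `|v|² u - ⟨u,v⟩ v` vanishes
  have h1 : ∑ i, ((∑ j, v j * v j) * u i - (∑ j, u j * v j) * v i) ^ 2 = 0 := by
    have e : ∀ i, ((∑ j, v j * v j) * u i - (∑ j, u j * v j) * v i) ^ 2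
        = (∑ j, v j * v j) ^ 2 * (u i * u i) - 2 * (∑ j, v j * v j) * (∑ j, u j * v j) * (u i * v i)
          + (∑ j, u j * v j) ^ 2 * (v i * v i) := fun i => by ring
    rw [Finset.sum_congr rfl fun i _ => e i, Finset.sum_add_distrib, Finset.sum_sub_distrib, ← Finset.mul_sum,
      ← Finset.mul_sum, ← Finset.mul_sum]
    linear_combination (∑ j, v j * v j) * h0
  have h2 : ∀ i, (∑ j, v j * v j) * u i - (∑ j, u j * v j) * v i = 0 := by
    intro i
    have := (Finset.sum_eq_zero_iff_of_nonneg (fun i _ => sq_nonneg _)).mp h1 i (Finset.mem_univ i)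
    exact pow_eq_zero_iff two_ne_zero |>.mp this
  have h3 := h (∑ j, v j * v j) (-(∑ j, u j * v j)) (by
    funext i
    have := h2 i
    simp only [Pi.add_apply, Pi.smul_apply, smul_eq_mul, Pi.zero_apply]
    linarith)
  have h4 : ∀ j, v j = 0 := by
    intro j
    have := (Finset.sum_eq_zero_iff_of_nonneg (fun i _ => mul_self_nonneg (v i))).mp h3.1 j (Finset.mem_univ j)
    exact mul_self_eq_zero.mp this
  have h5 := h 0 1 (by
    funext j
    simp [h4 j])
  exact one_ne_zero h5.2

end Pool.Agent.Helper47.SN
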