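import Pool.Agent.Helper47.SN.SN
import Pool.Agent.Helper64.RFn.DBD

/-!
# Sanity checks of the definitions

* `exists_metric`, `metric_unique`: every smooth field of inner products on the tangent spaces `x^⊥` of the
  sphere is given by exactly one `RMetric` (normal form `G(x) x = x`).
* `gdist_le_gdiam`: the diameter is a finite supremum.
-/

set_option autoImplicit false

namespace Pool.Agent.Helper47.SN

open Finset

variable {n : ℕ}

/-- the matrix `x xᵀ/|x|²` -/
noncomputable def Nm (x : EE n) (i j : Fin (n + 1)) : ℝ := (‖x‖ ^ 2)⁻¹ * (x i * x j)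

/-- the projection on `x^⊥` -/
noncomputable def Pj (x : EE n) (i j : Fin (n + 1)) : ℝ := (if i = j then 1 else 0) - Nm x i j

/-- the normal form -/
noncomputable def nf (H : MF n) : MF n := fun x =>
  Matrix.of fun i j => (∑ a, ∑ b, Pj x i a * H x a b * Pj x b j) + Nm x i j

theorem smooth_Nm (i j : Fin (n + 1)) :
    ContDiffOn ℝ ((⊤ : ℕ∞) : WithTop ℕ∞) (fun x : EE n => Nm x i j) {0}ᶜ := by
  have h1 : ∀ k : Fin (n + 1), ContDiffOn ℝ ((⊤ : ℕ∞) : WithTop ℕ∞) (fun x : EE n => x k) {0}ᶜ :=
    fun k => (EuclideanSpace.proj k : EE n →L[ℝ] ℝ).contDiff.contDiffOn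
  unfold Nm
  refine ContDiffOn.mul (ContDiffOn.inv (contDiff_norm_sq ℝ).contDiffOn fun x hx => ?_) ((h1 i).mul (h1 j))
  exact pow_ne_zero 2 (norm_ne_zero_iff.mpr hx)

theorem smooth_Pj (i j : Fin (n + 1)) :
    ContDiffOn ℝ ((⊤ : ℕ∞) : WithTop ℕ∞) (fun x : EE n => Pj x i j) {0}ᶜ := by
  unfold Pj
  exact contDiffOn_const.sub (smooth_Nm i j)

theorem Nm_smul (r : ℝ) (x : EE n) (hr : 0 < r) (i j : Fin (n + 1)) : Nm (r • x) i j = Nm x i j := by
  unfold Nm
  have h1 : ∀ k, (r • x) k = r * x k := fun k => rfl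
  rw [norm_smul, h1, h1, Real.norm_of_nonneg hr.le, mul_pow, mul_inv]
  have h2 : r ≠ 0 := hr.ne'
  field_simp

theorem sum_sq (x : EE n) (hx : ‖x‖ = 1) : ∑ i, x i * x i = 1 := by
  have h1 := EuclideanSpace.real_norm_sq_eq x
  rw [hx, one_pow] at h1
  refine Eq.trans ?_ h1.symm
  exact Finset.sum_congr rfl fun m _ => by ring

theorem Nm_unit (x : EE n) (hx : ‖x‖ = 1) (i j : Fin (n + 1)) : Nm x i j = x i * x j := by
  unfold Nm
  rw [hx]
  norm_num

theorem Nm_symm (x : EE n) (i j : Fin (n + 1)) : Nm x i j = Nm x j i := by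
  unfold Nm
  ring

theorem Pj_symm (x : EE n) (i j : Fin (n + 1)) : Pj x i j = Pj x j i := by
  unfold Pj
  rw [Nm_symm]
  simp only [eq_comm]

theorem Pj_vec (x : EE n) (hx : ‖x‖ = 1) (v : Fin (n + 1) → ℝ) (i : Fin (n + 1)) :
    ∑ j, Pj x i j * v j = v i - x i * ∑ j, v j * x j := by
  unfold Pj
  simp only [Nm_unit x hx, sub_mul, Finset.sum_sub_distrib, ite_mul, one_mul, zero_mul]
  rw [Finset.mul_sum, Finset.sum_ite_eq, if_pos (Finset.mem_univ _)]
  congr 1
  exact Finset.sum_congr rfl fun j _ => by ring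

theorem nf_form (H : MF n) (x : EE n) (hx : ‖x‖ = 1) (u v : Fin (n + 1) → ℝ) :
    ip (nf H) x u v = ip H x (fun i => ∑ j, Pj x i j * u j) (fun i => ∑ j, Pj x i j * v j)
      + (∑ i, u i * x i) * (∑ i, v i * x i) := by
  have h1 : ip (nf H) x u v = ∑ i, ∑ j, (∑ a, ∑ b, Pj x i a * H x a b * Pj x b j) * u i * v j
      + ∑ i, ∑ j, Nm x i j * u i * v j := by
    unfold ip nf
    simp only [Matrix.of_apply, add_mul, Finset.sum_add_distrib]
  have h2 : ∑ i, ∑ j, Nm x i j * u i * v j = (∑ i, u i * x i) * (∑ i, v i * x i) := by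
    rw [Finset.sum_mul_sum]
    exact Finset.sum_congr rfl fun i _ => Finset.sum_congr rfl fun j _ => by rw [Nm_unit x hx]; ring
  have h3 : ∑ i, ∑ j, (∑ a, ∑ b, Pj x i a * H x a b * Pj x b j) * u i * v j
      = ip H x (fun i => ∑ j, Pj x i j * u j) (fun i => ∑ j, Pj x i j * v j) := by
    unfold ip
    have e1 : ∀ i j, (∑ a, ∑ b, Pj x i a * H x a b * Pj x b j) * u i * v j
        = ∑ a, ∑ b, H x a b * (Pj x a i * u i) * (Pj x b j * v j) := by
      intro i j
      rw [Finset.sum_mul, Finset.sum_mul]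
      refine Finset.sum_congr rfl fun a _ => ?_
      rw [Finset.sum_mul, Finset.sum_mul]
      refine Finset.sum_congr rfl fun b _ => ?_
      rw [Pj_symm x i a]
      ring
    have e2 : ∀ a b, H x a b * (∑ j, Pj x a j * u j) * (∑ j, Pj x b j * v j)
        = ∑ i, ∑ j, H x a b * (Pj x a i * u i) * (Pj x b j * v j) := by
      intro a b
      rw [mul_assoc, Finset.sum_mul_sum, Finset.mul_sum]
      refine Finset.sum_congr rfl fun i _ => ?_
      rw [Finset.mul_sum]
      exact Finset.sum_congr rfl fun j _ => by ring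
    simp only [e1, e2]
    calc ∑ i, ∑ j, ∑ a, ∑ b, H x a b * (Pj x a i * u i) * (Pj x b j * v j)
        = ∑ i, ∑ a, ∑ j, ∑ b, H x a b * (Pj x a i * u i) * (Pj x b j * v j) :=
          Finset.sum_congr rfl fun i _ => Finset.sum_comm
      _ = ∑ a, ∑ i, ∑ j, ∑ b, H x a b * (Pj x a i * u i) * (Pj x b j * v j) := Finset.sum_comm
      _ = ∑ a, ∑ i, ∑ b, ∑ j, H x a b * (Pj x a i * u i) * (Pj x b j * v j) :=
          Finset.sum_congr rfl fun a _ => Finset.sum_congr rfl fun i _ => Finset.sum_comm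
      _ = ∑ a, ∑ b, ∑ i, ∑ j, H x a b * (Pj x a i * u i) * (Pj x b j * v j) :=
          Finset.sum_congr rfl fun a _ => Finset.sum_comm
  rw [h1, h2, h3]

theorem Pj_tan (x : EE n) (hx : ‖x‖ = 1) (v : Fin (n + 1) → ℝ) :
    Tan x (fun i => ∑ j, Pj x i j * v j) := by
  unfold Tan
  simp only [Pj_vec x hx, sub_mul, Finset.sum_sub_distrib]
  have e : ∀ i, x i * (∑ j, v j * x j) * x i = (∑ j, v j * x j) * (x i * x i) := fun i => by ring
  rw [Finset.sum_congr rfl fun i _ => e i, ← Finset.mul_sum, sum_sq x hx]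
  ring

/-- Every smooth field of inner products on the tangent spaces of the sphere is given by an `RMetric`. -/
theorem exists_metric (H : MF n)
    (hsm : ∀ i j, ContDiffOn ℝ ((⊤ : ℕ∞) : WithTop ℕ∞) (fun x => H x i j) {0}ᶜ)
    (hr : ∀ (r : ℝ) (x : EE n), 0 < r → H (r • x) = H x)
    (hsymm : ∀ x : EE n, ‖x‖ = 1 → ∀ i j, H x i j = H x j i)
    (hpos : ∀ x : EE n, ‖x‖ = 1 → ∀ u, Tan x u → u ≠ 0 → 0 < ip H x u u) :
    ∃ M : RMetric n, ∀ x : EE n, ‖x‖ = 1 → ∀ u v, Tan x u → Tan x v → ip M.G x u v = ip H x u v := by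
  refine ⟨⟨nf H, fun i j => ?_, fun r x h => ?_, fun x hx => ?_, fun x hx i => ?_⟩, fun x hx u v hu hv => ?_⟩
  · have h1 : ContDiffOn ℝ ((⊤ : ℕ∞) : WithTop ℕ∞)
        (fun x : EE n => (∑ a, ∑ b, Pj x i a * H x a b * Pj x b j) + Nm x i j) {0}ᶜ :=
      (ContDiffOn.sum fun a _ => ContDiffOn.sum fun b _ =>
        ((smooth_Pj i a).mul (hsm a b)).mul (smooth_Pj b j)).add (smooth_Nm i j)
    exact h1
  · ext i j
    show (∑ a, ∑ b, Pj (r • x) i a * H (r • x) a b * Pj (r • x) b j) + Nm (r • x) i j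
      = (∑ a, ∑ b, Pj x i a * H x a b * Pj x b j) + Nm x i j
    unfold Pj
    simp only [Nm_smul r x h, hr r x h]
  · rw [Matrix.posDef_iff_dotProduct_mulVec]
    refine ⟨?_, fun v hv => ?_⟩
    · ext i j
      show (∑ a, ∑ b, Pj x j a * H x a b * Pj x b i) + Nm x j i
        = (∑ a, ∑ b, Pj x i a * H x a b * Pj x b j) + Nm x i j
      rw [Nm_symm x j i, Finset.sum_comm]
      congr 1
      refine Finset.sum_congr rfl fun a _ => Finset.sum_congr rfl fun b _ => ?_
      rw [Pj_symm x j b, hsymm x hx b a, Pj_symm x a i]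
      ring
    · have e : star v ⬝ᵥ (nf H x).mulVec v = ip (nf H) x v v := by
        unfold ip
        simp only [dotProduct, Matrix.mulVec, star_trivial, Pi.star_apply]
        refine Finset.sum_congr rfl fun i _ => ?_
        rw [Finset.mul_sum]
        exact Finset.sum_congr rfl fun j _ => by ring
      rw [e, nf_form H x hx]
      by_cases h0 : (fun i => ∑ j, Pj x i j * v j) = 0
      · have h1 : ∀ i, v i = x i * ∑ j, v j * x j := by
          intro i
          have h2 := congrFun h0 i
          rw [Pj_vec x hx] at h2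
          have h3 : v i - x i * ∑ j, v j * x j = 0 := h2
          linarith
        have h4 : ∑ j, v j * x j ≠ 0 := by
          intro h5
          apply hv
          funext i
          rw [h1 i, h5, mul_zero]
          rfl
        have h6 : ip H x (fun i => ∑ j, Pj x i j * v j) (fun i => ∑ j, Pj x i j * v j) = 0 := by
          rw [h0]
          unfold ip
          simp
        rw [h6, zero_add]
        exact mul_self_pos.mpr h4
      · have h1 := hpos x hx _ (Pj_tan x hx v) h0
        have h2 := mul_self_nonneg (∑ i, v i * x i)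
        linarith
  · show ∑ j, ((∑ a, ∑ b, Pj x i a * H x a b * Pj x b j) + Nm x i j) * x j = x i
    simp only [add_mul, Finset.sum_add_distrib]
    have e1 : ∑ j, Nm x i j * x j = x i := by
      have e : ∀ j, Nm x i j * x j = x i * (x j * x j) := fun j => by rw [Nm_unit x hx]; ring
      rw [Finset.sum_congr rfl fun j _ => e j, ← Finset.mul_sum, sum_sq x hx, mul_one]
    have e2 : ∀ b, ∑ j, Pj x b j * x j = 0 := by
      intro b
      rw [Pj_vec x hx, sum_sq x hx]
      ring
    have e3 : ∑ j, (∑ a, ∑ b, Pj x i a * H x a b * Pj x b j) * x j = 0 := by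
      have e4 : ∀ j, (∑ a, ∑ b, Pj x i a * H x a b * Pj x b j) * x j
          = ∑ a, ∑ b, Pj x i a * H x a b * (Pj x b j * x j) := by
        intro j
        rw [Finset.sum_mul]
        refine Finset.sum_congr rfl fun a _ => ?_
        rw [Finset.sum_mul]
        exact Finset.sum_congr rfl fun b _ => by ring
      rw [Finset.sum_congr rfl fun j _ => e4 j, Finset.sum_comm]
      refine Finset.sum_eq_zero fun a _ => ?_
      rw [Finset.sum_comm]
      refine Finset.sum_eq_zero fun b _ => ?_
      rw [← Finset.mul_sum, e2, mul_zero]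
    rw [e3, e1, zero_add]
  · show ip (nf H) x u v = ip H x u v
    rw [nf_form H x hx]
    unfold Tan at hu hv
    simp only [Pj_vec x hx, hu, hv]
    simp

/-- The `RMetric` is determined by the inner products of tangent vectors. -/
theorem metric_unique (M M' : RMetric n)
    (h : ∀ x : EE n, ‖x‖ = 1 → ∀ u v, Tan x u → Tan x v → ip M.G x u v = ip M'.G x u v) :
    ∀ x : EE n, x ≠ 0 → M.G x = M'.G x := by
  have key : ∀ x : EE n, ‖x‖ = 1 → M.G x = M'.G x := by
    intro x hx
    -- bilinear form of `M` on arbitrary vectors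
    have hb : ∀ (M : RMetric n) (u v : Fin (n + 1) → ℝ), ip M.G x u v
        = ip M.G x (fun i => ∑ j, Pj x i j * u j) (fun i => ∑ j, Pj x i j * v j)
          + (∑ i, u i * x i) * (∑ i, v i * x i) := by
      intro M u v
      have hs : ∀ i j, M.G x i j = M.G x j i := by
        intro i j
        have := (M.posDef x hx).isHermitian.apply i j
        simpa using this.symm
      have h1 : ∀ w : Fin (n + 1) → ℝ, ∀ c : ℝ, ip M.G x w (fun i => c * x i) = c * ∑ i, w i * x i := by
        intro w c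
        unfold ip
        rw [Finset.mul_sum]
        refine Finset.sum_congr rfl fun i _ => ?_
        have e : ∀ j, M.G x i j * w i * (c * x j) = (w i * c) * (M.G x i j * x j) := fun j => by ring
        rw [Finset.sum_congr rfl fun j _ => e j, ← Finset.mul_sum, M.radial x hx i]
        ring
      have hsy : ∀ a b : Fin (n + 1) → ℝ, ip M.G x a b = ip M.G x b a := by
        intro a b
        unfold ip
        rw [Finset.sum_comm]
        refine Finset.sum_congr rfl fun i _ => Finset.sum_congr rfl fun j _ => ?_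
        rw [hs j i]
        ring
      have hadd : ∀ a b c : Fin (n + 1) → ℝ, ip M.G x a (fun i => b i + c i) = ip M.G x a b + ip M.G x a c := by
        intro a b c
        unfold ip
        rw [← Finset.sum_add_distrib]
        refine Finset.sum_congr rfl fun i _ => ?_
        rw [← Finset.sum_add_distrib]
        exact Finset.sum_congr rfl fun j _ => by ring
      have hdec : ∀ w : Fin (n + 1) → ℝ, w = fun i => (∑ j, Pj x i j * w j) + (∑ j, w j * x j) * x i := by
        intro w
        funext i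
        rw [Pj_vec x hx]
        ring
      have ht : ∀ w : Fin (n + 1) → ℝ, ∑ i, (∑ j, Pj x i j * w j) * x i = 0 := fun w => Pj_tan x hx w
      conv_lhs => rw [hdec v]
      rw [hadd, h1 u, hsy u]
      conv_lhs => rw [hdec u]
      rw [hadd, h1 (fun i => ∑ j, Pj x i j * v j), ht v, hsy (fun i => ∑ j, Pj x i j * v j)]
      have e : ∑ i, ((∑ j, Pj x i j * u j) + (∑ j, u j * x j) * x i) * x i = ∑ j, u j * x j := by
        refine Finset.sum_congr rfl fun i _ => ?_
        rw [Pj_vec x hx]
        ring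
      rw [e]
      ring
    ext i j
    have h1 : ∀ M : RMetric n, M.G x i j = ip M.G x (fun k => if k = i then 1 else 0) (fun k => if k = j then 1 else 0) := by
      intro M
      unfold ip
      simp
    rw [h1 M, h1 M', hb M, hb M', h x hx _ _ (Pj_tan x hx _) (Pj_tan x hx _)]
  intro x hx
  have hn : 0 < ‖x‖ := norm_pos_iff.mpr hx
  rw [← M.rays ‖x‖⁻¹ x (inv_pos.mpr hn), ← M'.rays ‖x‖⁻¹ x (inv_pos.mpr hn)]
  exact key _ (norm_unit hx)

/-- the diameter is a finite supremum -/
theorem gdist_le_gdiam (hn : 1 ≤ n) (M : RMetric n) (x y : EE n) (hx : ‖x‖ = 1) (hy : ‖y‖ = 1) :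
    gdist M.G x y ≤ gdiam M.G := by
  have h1 := (Helper64.RFn.DBD.dbd n (gz M.G) hn (isMetric M)).2.2.1 x y hx hy
  rw [← gdist_congr (gz_eq M.G), ← gdiam_congr (gz_eq M.G)]
  exact h1

end Pool.Agent.Helper47.SN
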